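import Mathlib
import Pool.Agent.Lib.MP_bf61d2_nt.Trim.Perm.Defs

set_option autoImplicit false

/-!
Functions of permutation characters of a finite group are linear combinations of transitive
permutation characters.
-/

namespace Pool.Agent.Lib.MP_bf61d2_nt.Perm

namespace GroupAlg

open MulAction

/-! ### Fixed points of sums and products of sets with an action -/

section

variable {G : Type*} [Group G] [Finite G] {P : (G → ℝ) → Prop}

end

end GroupAlg

/-- The mean of a transitive permutation character is `1`. -/
theorem sum_fp_quotient {G : Type*} [Group G] [Fintype G] (H : Subgroup G) :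
    ∑ g : G, fp (G ⧸ H) g = Fintype.card G := by
  classical
  haveI : Finite (G ⧸ H) := Quotient.finite _
  haveI : Fintype (G ⧸ H) := Fintype.ofFinite _
  haveI : ∀ a : G, Fintype (MulAction.fixedBy (G ⧸ H) a) := fun a => Fintype.ofFinite _
  haveI : Fintype (MulAction.orbitRel.Quotient G (G ⧸ H)) := Fintype.ofFinite _
  have h := MulAction.sum_card_fixedBy_eq_card_orbits_mul_card_group G (G ⧸ H)
  have h1 : Fintype.card (MulAction.orbitRel.Quotient G (G ⧸ H)) = 1 := by
    rw [Fintype.card_eq_one_iff]
    refine ⟨Quotient.mk'' ((1 : G) : G ⧸ H), fun y => ?_⟩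
    induction y using Quotient.inductionOn' with
    | h x =>
      rw [Quotient.eq'']
      exact MulAction.exists_smul_eq G ((1 : G) : G ⧸ H) x
  have h2 : ∑ g : G, fp (G ⧸ H) g = ∑ a : G, Fintype.card (MulAction.fixedBy (G ⧸ H) a) := by
    refine Finset.sum_congr rfl fun a _ => ?_
    unfold fp
    rw [← Nat.card_eq_fintype_card]
    rfl
  rw [h2, h]
  erw [h1]
  rw [one_mul]

end Pool.Agent.Lib.MP_bf61d2_nt.Perm
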