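import Mathlib
import Pool.Agent.Lib.MP_bf61d2_nt.Trim.Bessel
import Pool.Agent.Lib.MP_bf61d2_nt.Trim.Joint.CS
import Pool.Agent.Lib.MP_bf61d2_nt.Trim.Perm.Defs
import Pool.Agent.Lib.MP_bf61d2_nt.Trim.Perm.FixField
import Pool.Agent.Lib.MP_bf61d2_nt.Trim.Perm.Frob
import Pool.Agent.Lib.MP_bf61d2_nt.Trim.Perm.GroupAlg
import Pool.Agent.Lib.MP_bf61d2_nt.Trim.Perm.Regroup
import Pool.Agent.Lib.MP_bf61d2_nt.Trim.Places
import Pool.Agent.Lib.MP_bf61d2_nt.Trim.PrimeSum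
import Pool.Agent.Lib.MP_bf61d2_nt.Trim.Quad

set_option autoImplicit false

/-!
Equidistribution of the Frobenius elements with a cosine weight, for functions of permutation
characters.
-/

namespace NumberField
end NumberField

namespace Pool.Agent.Lib.MP_bf61d2_nt.Perm

open NumberField IsDedekindDomain Filter Topology

variable {K M : Type*} [Field K] [NumberField K] [Field M] [NumberField M] [Algebra K M]

/-- Equidistribution with a cosine weight. -/
def Eqd (Fr : HeightOneSpectrum (𝓞 K) → Gal(M/K)) [Fintype Gal(M/K)] (f : Gal(M/K) → ℝ) : Prop :=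
  ∀ τ : ℝ, ∃ C : ℝ, 0 ≤ C ∧ ∀ᶠ σ : ℝ in 𝓝[>] 1,
    |∑' v, wp σ v * (f (Fr v) * Real.cos (τ * Real.log (nm v))) -
      (if τ = 0 then (∑ g, f g) / Fintype.card Gal(M/K) else 0) * Real.log (1 / (σ - 1))| ≤ C

lemma summable_fin {G : Type*} [Finite G] {σ : ℝ} (hσ : 1 < σ)
    (Fr : HeightOneSpectrum (𝓞 K) → G) (f : G → ℝ) (τ : ℝ) :
    Summable fun v => wp σ v * (f (Fr v) * Real.cos (τ * Real.log (nm v))) := by
  have := Fintype.ofFinite G
  refine summable_mul_bdd (summable_wp (K := K) hσ) (fun v => (wp_pos σ v).le)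
    (B := ∑ g, |f g|) fun v => ?_
  rw [abs_mul]
  calc |f (Fr v)| * |Real.cos (τ * Real.log (nm v))| ≤ |f (Fr v)| * 1 :=
        mul_le_mul_of_nonneg_left (Real.abs_cos_le_one _) (abs_nonneg _)
    _ = |f (Fr v)| := mul_one _
    _ ≤ ∑ g, |f g| := Finset.single_le_sum (f := fun g => |f g|) (fun g _ => abs_nonneg _)
        (Finset.mem_univ _)

variable [Fintype Gal(M/K)]

lemma Eqd.add {Fr : HeightOneSpectrum (𝓞 K) → Gal(M/K)} {f g : Gal(M/K) → ℝ} (hf : Eqd Fr f)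
    (hg : Eqd Fr g) : Eqd Fr (f + g) := by
  intro τ
  obtain ⟨C₁, h10, h1⟩ := hf τ
  obtain ⟨C₂, h20, h2⟩ := hg τ
  refine ⟨C₁ + C₂, by positivity, ?_⟩
  filter_upwards [h1, h2, self_mem_nhdsWithin] with σ h1 h2 hσ
  have hσ' : 1 < σ := hσ
  have e1 : ∑' v, wp σ v * ((f + g) (Fr v) * Real.cos (τ * Real.log (nm v))) =
      ∑' v, wp σ v * (f (Fr v) * Real.cos (τ * Real.log (nm v))) +
      ∑' v, wp σ v * (g (Fr v) * Real.cos (τ * Real.log (nm v))) := by
    rw [← (summable_fin hσ' Fr f τ).tsum_add (summable_fin hσ' Fr g τ)]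
    refine tsum_congr fun v => ?_
    rw [Pi.add_apply]
    ring
  have e2 : (if τ = 0 then (∑ x, (f + g) x) / (Fintype.card Gal(M/K) : ℝ) else 0) =
      (if τ = 0 then (∑ x, f x) / (Fintype.card Gal(M/K) : ℝ) else 0) +
      (if τ = 0 then (∑ x, g x) / (Fintype.card Gal(M/K) : ℝ) else 0) := by
    split_ifs
    · simp only [Pi.add_apply, Finset.sum_add_distrib]
      ring
    · ring
  rw [e1, e2]
  have h3 := abs_le.mp h1
  have h4 := abs_le.mp h2
  rw [abs_le]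
  constructor <;> nlinarith [h3.1, h3.2, h4.1, h4.2]

lemma Eqd.smul {Fr : HeightOneSpectrum (𝓞 K) → Gal(M/K)} {f : Gal(M/K) → ℝ} (a : ℝ)
    (hf : Eqd Fr f) : Eqd Fr (a • f) := by
  intro τ
  obtain ⟨C₁, h10, h1⟩ := hf τ
  refine ⟨|a| * C₁, by positivity, ?_⟩
  filter_upwards [h1] with σ h1
  have e1 : ∑' v, wp σ v * ((a • f) (Fr v) * Real.cos (τ * Real.log (nm v))) =
      a * ∑' v, wp σ v * (f (Fr v) * Real.cos (τ * Real.log (nm v))) := by
    rw [← tsum_mul_left]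
    refine tsum_congr fun v => ?_
    rw [Pi.smul_apply, smul_eq_mul]
    ring
  have e2 : (if τ = 0 then (∑ x, (a • f) x) / (Fintype.card Gal(M/K) : ℝ) else 0) =
      a * (if τ = 0 then (∑ x, f x) / (Fintype.card Gal(M/K) : ℝ) else 0) := by
    split_ifs
    · simp only [Pi.smul_apply, smul_eq_mul, ← Finset.mul_sum]
      ring
    · ring
  rw [e1, e2, mul_assoc, ← mul_sub, abs_mul]
  exact mul_le_mul_of_nonneg_left h1 (abs_nonneg _)

omit [Fintype Gal(M/K)] in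
/-- Replacing the number of places of degree one by the number of fixed embeddings. -/
lemma swap {Fr : HeightOneSpectrum (𝓞 K) → Gal(M/K)} {F : IntermediateField K M}
    (hF : {v : HeightOneSpectrum (𝓞 K) | r1 F v ≠ fx F (Fr v)}.Finite) [Finite Gal(M/K)] :
    ∃ C : ℝ, 0 ≤ C ∧ ∀ σ : ℝ, 1 < σ → ∀ x : HeightOneSpectrum (𝓞 K) → ℝ, (∀ v, |x v| ≤ 2) →
      |∑' v, wp σ v * (r1 F v * x v) - ∑' v, wp σ v * (fx F (Fr v) * x v)| ≤ C := by
  classical
  have := Fintype.ofFinite Gal(M/K)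
  set S := hF.toFinset with hS
  refine ⟨∑ v ∈ S, |(r1 F v : ℝ) - fx F (Fr v)|, Finset.sum_nonneg fun v _ => abs_nonneg _, ?_⟩
  intro σ hσ x hx
  have hs1 : Summable fun v => wp σ v * ((r1 F v : ℝ) * x v) := by
    refine summable_mul_bdd (summable_wp (K := K) hσ) (fun v => (wp_pos σ v).le)
      (B := Module.finrank (𝓞 K) (𝓞 F) * 2) fun v => ?_
    rw [abs_mul, abs_of_nonneg (Nat.cast_nonneg _)]
    have : (r1 F v : ℝ) ≤ Module.finrank (𝓞 K) (𝓞 F) := by exact_mod_cast r1_le v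
    exact mul_le_mul this (hx v) (abs_nonneg _) (Nat.cast_nonneg _)
  have hs2 : Summable fun v => wp σ v * ((fx F (Fr v) : ℝ) * x v) := by
    refine summable_mul_bdd (summable_wp (K := K) hσ) (fun v => (wp_pos σ v).le)
      (B := (∑ g : Gal(M/K), (fx F g : ℝ)) * 2) fun v => ?_
    rw [abs_mul, abs_of_nonneg (Nat.cast_nonneg _)]
    have : (fx F (Fr v) : ℝ) ≤ ∑ g : Gal(M/K), (fx F g : ℝ) :=
      Finset.single_le_sum (f := fun g : Gal(M/K) => (fx F g : ℝ)) (fun g _ => Nat.cast_nonneg _)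
        (Finset.mem_univ _)
    exact mul_le_mul this (hx v) (abs_nonneg _) (Finset.sum_nonneg fun _ _ => Nat.cast_nonneg _)
  rw [← hs1.tsum_sub hs2, ← Real.norm_eq_abs]
  have hg : HasSum (fun v => if v ∈ S then |(r1 F v : ℝ) - fx F (Fr v)| else 0)
      (∑ v ∈ S, |(r1 F v : ℝ) - fx F (Fr v)|) := by
    have h3 : HasSum (fun v => if v ∈ S then |(r1 F v : ℝ) - fx F (Fr v)| else 0)
      (∑ v ∈ S, if v ∈ S then |(r1 F v : ℝ) - fx F (Fr v)| else 0) :=
      hasSum_sum_of_ne_finset_zero fun v hv => if_neg hv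
    rwa [Finset.sum_congr rfl fun v hv => if_pos hv] at h3
  refine tsum_of_norm_bounded hg fun v => ?_
  rw [Real.norm_eq_abs]
  have e : wp σ v * ((r1 F v : ℝ) * x v) - wp σ v * ((fx F (Fr v) : ℝ) * x v) =
      wp σ v * (((r1 F v : ℝ) - fx F (Fr v)) * x v) := by ring
  rw [e, abs_mul, abs_mul, abs_of_pos (wp_pos σ v)]
  split_ifs with hv
  · calc wp σ v * (|(r1 F v : ℝ) - fx F (Fr v)| * |x v|) ≤
          1 / 2 * (|(r1 F v : ℝ) - fx F (Fr v)| * 2) := by
          refine mul_le_mul (wp_le_half hσ.le v) ?_ (by positivity) (by norm_num)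
          exact mul_le_mul_of_nonneg_left (hx v) (abs_nonneg _)
      _ = _ := by ring
  · have : r1 F v = fx F (Fr v) := by
      by_contra hcon
      exact hv (hF.mem_toFinset.mpr hcon)
    rw [this, sub_self, abs_zero, zero_mul, mul_zero]

variable [IsGalois K M]

/-- Equidistribution for the permutation characters. -/
lemma eqd_quotient {Fr : HeightOneSpectrum (𝓞 K) → Gal(M/K)}
    (hFr : ∀ F : IntermediateField K M, {v : HeightOneSpectrum (𝓞 K) | r1 F v ≠ fx F (Fr v)}.Finite)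
    (H : Subgroup Gal(M/K)) : Eqd Fr fun g => (fp (Gal(M/K) ⧸ H) g : ℝ) := by
  intro τ
  have hfd : FiniteDimensional K M := Module.Finite.of_restrictScalars_finite ℚ K M
  set F := IntermediateField.fixedField H with hF
  obtain ⟨C₁, h10, h1⟩ := swap (hFr F)
  obtain ⟨C₂, h20, h2⟩ := regroup (K := K) (L := F) (a := fun _ => 1) (b := fun _ => 1) (A := 1)
    (fun _ => by simp) (fun _ => by simp) ∅ (fun _ _ _ => rfl)
  have hzeta : ∃ C : ℝ, 0 ≤ C ∧ ∀ᶠ σ : ℝ in 𝓝[>] 1,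
      |∑' w : HeightOneSpectrum (𝓞 F), wp σ w * Real.cos (τ * Real.log (nm w)) -
        (if τ = 0 then 1 else 0) * Real.log (1 / (σ - 1))| ≤ C := by
    by_cases hτ : τ = 0
    · obtain ⟨C, hC0, hC⟩ := PS_bound F
      refine ⟨C, hC0, hC.mono fun σ hσ => ?_⟩
      simp only [hτ, zero_mul, Real.cos_zero, mul_one, if_true, one_mul]
      exact hσ
    · obtain ⟨C, hC0, hC⟩ := CS_bound F hτ
      refine ⟨C, hC0, hC.mono fun σ hσ => ?_⟩
      rw [if_neg hτ, zero_mul, sub_zero]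
      exact hσ
  obtain ⟨C₃, h30, h3⟩ := hzeta
  refine ⟨C₁ + C₂ + C₃, by positivity, ?_⟩
  have hmean : (∑ g : Gal(M/K), (fp (Gal(M/K) ⧸ H) g : ℝ)) / Fintype.card Gal(M/K) = 1 := by
    have := sum_fp_quotient H
    have h4 : (∑ g : Gal(M/K), (fp (Gal(M/K) ⧸ H) g : ℝ)) = Fintype.card Gal(M/K) := by
      exact_mod_cast this
    rw [h4, div_self]
    exact_mod_cast Fintype.card_ne_zero
  filter_upwards [h3, self_mem_nhdsWithin] with σ h3 hσ
  have hσ' : 1 < σ := hσ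
  rw [hmean]
  have h4 := h1 σ hσ' (fun v => Real.cos (τ * Real.log (nm v)))
    (fun v => (Real.abs_cos_le_one _).trans (by norm_num))
  have h5 := h2 (fun n => Real.cos (τ * Real.log n)) (fun n => Real.abs_cos_le_one _) σ hσ'
  simp only [one_mul] at h5
  have e1 : ∀ v, (fx F (Fr v) : ℝ) = (fp (Gal(M/K) ⧸ H) (Fr v) : ℝ) := fun v => by
    rw [hF, fx_fixedField]
  simp_rw [e1] at h4
  have h6 := abs_le.mp h3
  have h7 := abs_le.mp h4
  have h8 := abs_le.mp h5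
  rw [abs_le]
  constructor <;> linarith [h6.1, h6.2, h7.1, h7.2, h8.1, h8.2]

end Pool.Agent.Lib.MP_bf61d2_nt.Perm
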