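import Mathlib
import Pool.Agent.Lib.MP_bf61d2_nt.Trim.Perm.MeanVal
import Pool.Agent.Lib.MP_bf61d2_nt.Trim.Perm.Trig

set_option autoImplicit false

/-!
The quotient `L(E/F, s) / L(E/K, s)` near the edge, in terms of the density of the elements of the
Galois group without fixed embedding.
-/

namespace NumberField
end NumberField

namespace Pool.Agent.Lib.MP_bf61d2_nt.Perm

open NumberField IsDedekindDomain Filter Topology MeasureTheory

lemma integral_abs_cos_pi : ∫ x in (0 : ℝ)..Real.pi, |Real.cos x| = 2 := by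
  have hpi := Real.pi_pos
  have hc : ∀ a b : ℝ, IntervalIntegrable (fun x => |Real.cos x|) volume a b := fun a b =>
    (by fun_prop : Continuous fun x => |Real.cos x|).intervalIntegrable a b
  rw [← intervalIntegral.integral_add_adjacent_intervals (hc 0 (Real.pi / 2))
    (hc (Real.pi / 2) Real.pi)]
  have h1 : ∫ x in (0 : ℝ)..(Real.pi / 2), |Real.cos x| = 1 := by
    have h2 : ∫ x in (0 : ℝ)..(Real.pi / 2), |Real.cos x| =
        ∫ x in (0 : ℝ)..(Real.pi / 2), Real.cos x := by
      refine intervalIntegral.integral_congr fun x hx => ?_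
      rw [Set.uIcc_of_le (by linarith)] at hx
      exact abs_of_nonneg (Real.cos_nonneg_of_mem_Icc ⟨by linarith [hx.1], hx.2⟩)
    rw [h2, integral_cos, Real.sin_pi_div_two, Real.sin_zero, sub_zero]
  have h3 : ∫ x in (Real.pi / 2)..Real.pi, |Real.cos x| = 1 := by
    have h2 : ∫ x in (Real.pi / 2)..Real.pi, |Real.cos x| =
        ∫ x in (Real.pi / 2)..Real.pi, -Real.cos x := by
      refine intervalIntegral.integral_congr fun x hx => ?_
      rw [Set.uIcc_of_le (by linarith)] at hx
      exact abs_of_nonpos (Real.cos_nonpos_of_pi_div_two_le_of_le hx.1 (by linarith [hx.2]))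
    rw [h2, intervalIntegral.integral_neg, integral_cos, Real.sin_pi, Real.sin_pi_div_two]
    norm_num
  rw [h1, h3]
  norm_num

lemma avg_abs_cos {t : ℝ} (ht : t ≠ 0) (k : ℕ) :
    avg (fun u => |Real.cos (t * u)|) ((k + 1) * Real.pi / |t|) = 2 / Real.pi := by
  have hpi := Real.pi_pos
  have ht' : 0 < |t| := abs_pos.mpr ht
  have h1 : ∀ u : ℝ, |Real.cos (t * u)| = |Real.cos (|t| * u)| := by
    intro u
    rcases le_total 0 t with h | h
    · rw [abs_of_nonneg h]
    · rw [abs_of_nonpos h, neg_mul, Real.cos_neg]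
  have hper : Function.Periodic (fun x => |Real.cos x|) Real.pi := fun x => by
    simp only [Real.cos_add_pi, abs_neg]
  have h2 := hper.intervalIntegral_add_zsmul_eq (k + 1 : ℤ) 0
  rw [zero_add, zero_add, integral_abs_cos_pi] at h2
  have h3 : ((k + 1 : ℤ) • Real.pi : ℝ) = (k + 1) * Real.pi := by
    rw [zsmul_eq_mul]; push_cast; ring
  have h4 : ((k + 1 : ℤ) • (2 : ℝ)) = (k + 1) * 2 := by
    rw [zsmul_eq_mul]; push_cast; ring
  rw [h3, h4] at h2
  replace h2 := h2 fun a b =>
    (by fun_prop : Continuous fun x => |Real.cos x|).intervalIntegrable a b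
  rw [avg]
  simp_rw [h1]
  rw [intervalIntegral.integral_comp_mul_left (fun x => |Real.cos x|) ht'.ne', mul_zero,
    mul_div_cancel₀ _ ht'.ne', h2, smul_eq_mul]
  have h5 : (0 : ℝ) < k + 1 := by positivity
  field_simp

/-- The mean value of `|cos (t u)|`. -/
lemma tendsto_avg_abs_cos (t : ℝ) : Tendsto (avg fun u => |Real.cos (t * u)|) atTop
    (𝓝 (if t = 0 then 1 else 2 / Real.pi)) := by
  by_cases ht : t = 0
  · rw [if_pos ht]
    refine tendsto_const_nhds.congr' ?_
    filter_upwards [eventually_gt_atTop 0] with X hX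
    rw [avg, ht]
    simp only [zero_mul, Real.cos_zero, abs_one, intervalIntegral.integral_const, sub_zero,
      smul_eq_mul, mul_one]
    rw [inv_mul_cancel₀ hX.ne']
  · rw [if_neg ht]
    obtain ⟨m, hm, -⟩ := exists_mean (h := fun u => |Real.cos (t * u)|) (by fun_prop)
      fun ε hε => by
        obtain ⟨N, τ, β, h⟩ := exists_trig_approx (n := 1) (fun _ => t) (fun _ => 1) hε
        refine ⟨N, τ, β, fun u => ?_⟩
        have := h u
        simpa using this
    have h1 : Tendsto (fun k : ℕ => ((k : ℝ) + 1) * Real.pi / |t|) atTop atTop := by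
      have h2 : Tendsto (fun k : ℕ => (k : ℝ) + 1) atTop atTop :=
        tendsto_atTop_add_const_right _ _ tendsto_natCast_atTop_atTop
      exact (h2.atTop_mul_const Real.pi_pos).atTop_div_const (abs_pos.mpr ht)
    have h3 := hm.comp h1
    have h4 : (avg fun u => |Real.cos (t * u)|) ∘ (fun k : ℕ => ((k : ℝ) + 1) * Real.pi / |t|) =
        fun _ => 2 / Real.pi := funext fun k => avg_abs_cos ht k
    rw [h4] at h3
    have h5 := tendsto_nhds_unique h3 tendsto_const_nhds
    rw [← h5]
    exact hm

section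

variable {K M : Type*} [Field K] [NumberField K] [Field M] [NumberField M] [Algebra K M]

variable [IsGalois K M] [Fintype Gal(M/K)]

end

end Pool.Agent.Lib.MP_bf61d2_nt.Perm
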